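import Mathlib

/-!
# The number of decompositions of a poset into `k` chains is finite or uncountable
-/

namespace Pool.Agent.H643R2.ChainDec

section Dilworth

open Classical

variable {α : Type*} [PartialOrder α]

/-- Finite antichains. -/
def IsAC (S : Finset α) : Prop := ∀ a ∈ S, ∀ b ∈ S, a ≤ b → a = b

theorem surj_of_card {P : Finset α} {k : ℕ} {f : α → ℕ} (hf : ∀ a ∈ P, f a < k)
    (hc : ∀ a ∈ P, ∀ b ∈ P, f a = f b → a ≤ b ∨ b ≤ a) {S : Finset α} (hS : S ⊆ P)
    (hac : IsAC S) (hcard : S.card = k) {i : ℕ} (hi : i < k) : ∃ z ∈ S, f z = i := by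
  have hinj : Set.InjOn f (S : Set α) := by
    intro a ha b hb hab
    have ha' : a ∈ S := ha
    have hb' : b ∈ S := hb
    rcases hc a (hS ha') b (hS hb') hab with h | h
    · exact hac a ha' b hb' h
    · exact (hac b hb' a ha' h).symm
  have him : S.image f = Finset.range k := by
    apply Finset.eq_of_subset_of_card_le
    · intro j hj
      obtain ⟨a, ha, rfl⟩ := Finset.mem_image.mp hj
      exact Finset.mem_range.mpr (hf a (hS ha))
    · rw [Finset.card_range, Finset.card_image_of_injOn hinj, hcard]
  have : i ∈ S.image f := by rw [him]; exact Finset.mem_range.mpr hi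
  obtain ⟨z, hz, h⟩ := Finset.mem_image.mp this
  exact ⟨z, hz, h⟩

/-- Dilworth's theorem for finite sets. -/
theorem dilworth_finset : ∀ (n k : ℕ) (P : Finset α), P.card = n →
    (∀ S : Finset α, S ⊆ P → IsAC S → S.card ≤ k) →
    ∃ f : α → ℕ, (∀ a ∈ P, f a < k) ∧ ∀ a ∈ P, ∀ b ∈ P, f a = f b → a ≤ b ∨ b ≤ a := by
  intro n
  induction n using Nat.strong_induction_on with
  | _ n ih =>
    intro k P hn hk
    rcases P.eq_empty_or_nonempty with rfl | hne
    · exact ⟨fun _ => 0, by simp, by simp⟩
    obtain ⟨a, ha⟩ := P.exists_maximal hne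
    have haP : a ∈ P := ha.1
    have hamax : ∀ b ∈ P, a ≤ b → b = a := fun b hb hab => le_antisymm (ha.2 hb hab) hab
    have hk1 : 1 ≤ k := by
      have := hk {a} (by simpa using haP) (by intro x hx y hy _; simp at hx hy; rw [hx, hy])
      simpa using this
    set P' := P.erase a with hP'
    have hP'P : P' ⊆ P := Finset.erase_subset _ _
    have hcardP' : P'.card < n := by
      rw [hP', Finset.card_erase_of_mem haP]; have := Finset.card_pos.mpr hne; omega
    by_cases hA : ∃ K : Finset α, K ⊆ P' ∧ IsAC K ∧ K.card = k
    · obtain ⟨K0, hK0, hK0ac, hK0c⟩ := hA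
      obtain ⟨f, hf1, hf2⟩ := ih _ hcardP' k P' rfl (fun S hS hac => hk S (hS.trans hP'P) hac)
      -- the sets of candidates
      let Z : ℕ → Finset α := fun i => P'.filter fun z => f z = i ∧
        ∃ K : Finset α, K ⊆ P' ∧ IsAC K ∧ K.card = k ∧ z ∈ K
      have hZne : ∀ i, i < k → (Z i).Nonempty := by
        intro i hi
        obtain ⟨z, hz, hz2⟩ := surj_of_card hf1 hf2 hK0 hK0ac hK0c hi
        exact ⟨z, Finset.mem_filter.mpr ⟨hK0 hz, hz2, K0, hK0, hK0ac, hK0c, hz⟩⟩
      have hx : ∀ i : Fin k, ∃ x, x ∈ Z i ∧ ∀ z ∈ Z i, z ≤ x := by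
        intro i
        obtain ⟨x, hx⟩ := (Z i).exists_maximal (hZne i i.2)
        refine ⟨x, hx.1, fun z hz => ?_⟩
        have h1 := Finset.mem_filter.mp hz
        have h2 := Finset.mem_filter.mp hx.1
        rcases hf2 z h1.1 x h2.1 (h1.2.1.trans h2.2.1.symm) with h | h
        · exact h
        · exact hx.2 hz h
      choose x hxZ hxmax using hx
      have hxP' : ∀ i, x i ∈ P' := fun i => (Finset.mem_filter.mp (hxZ i)).1
      have hxf : ∀ i, f (x i) = i := fun i => (Finset.mem_filter.mp (hxZ i)).2.1
      have hle : ∀ (i : Fin k) (K : Finset α), K ⊆ P' → IsAC K → K.card = k → ∀ z ∈ K, f z = i →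
          z ≤ x i := by
        intro i K hK hac hc z hz hfz
        exact hxmax i z (Finset.mem_filter.mpr ⟨hK hz, hfz, K, hK, hac, hc, hz⟩)
      have hxac : ∀ i j, x i ≤ x j → i = j := by
        intro i j hij
        obtain ⟨-, -, K, hK, hac, hc, hz⟩ := Finset.mem_filter.mp (hxZ j)
        obtain ⟨z, hz1, hz2⟩ := surj_of_card hf1 hf2 hK hac hc i.2
        have h1 := hle i K hK hac hc z hz1 hz2
        have h2 := hac z hz1 (x j) hz (h1.trans hij)
        have h3 : f z = f (x j) := by rw [h2]
        rw [hz2, hxf] at h3
        exact Fin.ext h3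
      have hxinj : Function.Injective x := fun i j h => hxac i j h.le
      -- `a` lies above some `x i`
      have hai : ∃ i, x i ≤ a := by
        by_contra hcon
        push Not at hcon
        have hnot : a ∉ Finset.univ.image x := by
          intro h
          obtain ⟨i, -, hi⟩ := Finset.mem_image.mp h
          exact hcon i hi.le
        have hS := hk (insert a (Finset.univ.image x)) (by
          intro y hy
          rcases Finset.mem_insert.mp hy with rfl | hy
          · exact haP
          · obtain ⟨i, -, rfl⟩ := Finset.mem_image.mp hy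
            exact hP'P (hxP' i)) (by
          intro y hy z hz hyz
          rcases Finset.mem_insert.mp hy with rfl | hy
          · rcases Finset.mem_insert.mp hz with rfl | hz
            · rfl
            · obtain ⟨i, -, rfl⟩ := Finset.mem_image.mp hz
              exact (hamax _ (hP'P (hxP' i)) hyz).symm
          · obtain ⟨i, -, rfl⟩ := Finset.mem_image.mp hy
            rcases Finset.mem_insert.mp hz with rfl | hz
            · exact absurd hyz (hcon i)
            · obtain ⟨j, -, rfl⟩ := Finset.mem_image.mp hz
              rw [hxac i j hyz])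
        rw [Finset.card_insert_of_notMem hnot, Finset.card_image_of_injective _ hxinj,
          Finset.card_univ, Fintype.card_fin] at hS
        omega
      obtain ⟨i, hi⟩ := hai
      let P'' := P'.filter fun z => ¬ (f z = i ∧ z ≤ x i)
      have hP'' : P'' ⊆ P' := Finset.filter_subset _ _
      obtain ⟨g, hg1, hg2⟩ := ih P''.card (lt_of_le_of_lt (Finset.card_le_card hP'') hcardP') (k - 1)
        P'' rfl (by
          intro S hS hac
          have h1 := hk S ((hS.trans hP'').trans hP'P) hac
          rcases Nat.lt_or_ge S.card k with h | h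
          · omega
          · exfalso
            obtain ⟨z, hz1, hz2⟩ := surj_of_card hf1 hf2 (hS.trans hP'') hac (le_antisymm h1 h) i.2
            have h3 := (Finset.mem_filter.mp (hS hz1)).2
            exact h3 ⟨hz2, hle i S (hS.trans hP'') hac (le_antisymm h1 h) z hz1 hz2⟩)
      refine ⟨fun z => if z ∈ P'' then g z else k - 1, ?_, ?_⟩
      · intro z hz
        by_cases h : z ∈ P''
        · simp only [h, if_true]; have := hg1 z h; omega
        · simp only [h, if_false]; omega
      · have hkey : ∀ z ∈ P, z ∉ P'' → z ≤ a ∧ (z = a ∨ (f z = i ∧ z ≤ x i ∧ z ∈ P')) := by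
          intro z hz hz2
          by_cases hza : z = a
          · exact ⟨hza.le, Or.inl hza⟩
          · have hz' : z ∈ P' := Finset.mem_erase.mpr ⟨hza, hz⟩
            have h3 : f z = i ∧ z ≤ x i := by
              by_contra hcon
              exact hz2 (Finset.mem_filter.mpr ⟨hz', hcon⟩)
            exact ⟨h3.2.trans hi, Or.inr ⟨h3.1, h3.2, hz'⟩⟩
        intro z hz w hw hzw
        by_cases h : z ∈ P'' <;> by_cases h' : w ∈ P''
        · simp only [h, h', if_true] at hzw
          exact hg2 z h w h' hzw
        · simp only [h, h', if_true, if_false] at hzw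
          have := hg1 z h; omega
        · simp only [h, h', if_true, if_false] at hzw
          have := hg1 w h'; omega
        · obtain ⟨h1, h2⟩ := hkey z hz h
          obtain ⟨h3, h4⟩ := hkey w hw h'
          rcases h2 with rfl | h2
          · exact Or.inr h3
          rcases h4 with rfl | h4
          · exact Or.inl h1
          exact hf2 z h2.2.2 w h4.2.2 (h2.1.trans h4.1.symm)
    · push Not at hA
      obtain ⟨g, hg1, hg2⟩ := ih _ hcardP' (k - 1) P' rfl (by
        intro S hS hac
        have h1 := hk S (hS.trans hP'P) hac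
        have h2 := hA S hS hac
        omega)
      refine ⟨fun z => if z = a then k - 1 else g z, ?_, ?_⟩
      · intro z hz
        by_cases h : z = a
        · simp only [h, if_true]; omega
        · simp only [h, if_false]
          have := hg1 z (Finset.mem_erase.mpr ⟨h, hz⟩); omega
      · intro z hz w hw hzw
        by_cases h : z = a <;> by_cases h' : w = a
        · left; rw [h, h']
        · simp only [h, h', if_true, if_false] at hzw
          have := hg1 w (Finset.mem_erase.mpr ⟨h', hw⟩); omega
        · simp only [h, h', if_true, if_false] at hzw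
          have := hg1 z (Finset.mem_erase.mpr ⟨h, hz⟩); omega
        · simp only [h, h', if_false] at hzw
          exact hg2 z (Finset.mem_erase.mpr ⟨h, hz⟩) w (Finset.mem_erase.mpr ⟨h', hw⟩) hzw

/-- Decompositions of a poset into `k` chains. -/
def CDec (α : Type*) [PartialOrder α] (k : ℕ) : Set (α → Fin k) :=
  {f | ∀ a b, f a = f b → a ≤ b ∨ b ≤ a}

/-- Dilworth's theorem for arbitrary posets of width at most `k`. -/
theorem dilworth (k : ℕ) (h : ∀ S : Finset α, IsAC S → S.card ≤ k) : (CDec α k).Nonempty := by
  let G : SimpleGraph α :=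
    { Adj := fun a b => ¬ (a ≤ b ∨ b ≤ a)
      symm := ⟨fun a b hab hba => hab (Or.symm hba)⟩
      loopless := ⟨fun a ha => ha (Or.inl le_rfl)⟩ }
  have key : Nonempty (G →g (⊤ : SimpleGraph (Fin k))) := by
    apply SimpleGraph.nonempty_hom_of_forall_finite_subgraph_hom
    intro G' hG'
    have hex := dilworth_finset _ k hG'.toFinset rfl (fun S _ hac => h S hac)
    exact
      { toFun := fun v => ⟨hex.choose v, hex.choose_spec.1 v (hG'.mem_toFinset.mpr v.2)⟩
        map_rel' := by
          intro v w hvw
          have h1 : G.Adj v w := hvw.adj_sub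
          rw [SimpleGraph.top_adj]
          intro heq
          exact h1 (hex.choose_spec.2 v (hG'.mem_toFinset.mpr v.2) w (hG'.mem_toFinset.mpr w.2)
            (congrArg Fin.val heq)) }
  obtain ⟨φ⟩ := key
  refine ⟨fun a => φ a, fun a b hab => ?_⟩
  by_contra hcon
  have h1 : G.Adj a b := hcon
  have h2 := φ.map_rel h1
  rw [SimpleGraph.top_adj] at h2
  exact h2 hab

theorem card_le_of_dec {k : ℕ} {f : α → Fin k} (hf : f ∈ CDec α k) {S : Finset α} (hS : IsAC S) :
    S.card ≤ k := by
  have hinj : Set.InjOn f (S : Set α) := by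
    intro a ha b hb hab
    rcases hf a b hab with h | h
    · exact hS a ha b hb h
    · exact (hS b hb a ha h).symm
  have := Finset.card_le_card (Finset.subset_univ (S.image f))
  rw [Finset.card_image_of_injOn hinj, Finset.card_univ, Fintype.card_fin] at this
  exact this

end Dilworth

end Pool.Agent.H643R2.ChainDec
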